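import Mathlib
import Pool.Agent.H348R6.GV1

/-!
# Complete filters without the Galvin property

For every regular cardinal `κ` there is a proper `κ`-complete filter over `κ` which contains all
sets with a complement of size less than `κ` and does not have the Galvin property. No hypothesis
on cardinal arithmetic is used.

Let `B i` (`i < κ⁺`) be subsets of `κ` of size `κ` any two of which have an intersection of size
less than `κ`. The filter consists of all `X` whose complement is covered, up to a set of size less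
than `κ`, by fewer than `κ` of the sets `B i`.
-/

set_option autoImplicit false

namespace Pool.Agent.Results.MP_45cf3b_lc.FilterWithoutGalvin

open Cardinal Set

universe u

/-- The filter `F` over the cardinal `κ` has the Galvin property: for every sequence of `κ⁺`
members of `F` there is a set of `κ` many indices with intersection in `F`. -/
def Galvin (κ : Cardinal.{u}) (F : Filter κ.ord.ToType) : Prop :=
  ∀ A : (Order.succ κ).ord.ToType → Set κ.ord.ToType, (∀ i, A i ∈ F) →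
    ∃ I : Set (Order.succ κ).ord.ToType, #I = κ ∧ ⋂ i ∈ I, A i ∈ F

/-- The filter `F` over the cardinal `κ` is `κ`-complete: the intersection of fewer than `κ`
members of `F` is a member of `F`. -/
def Complete (κ : Cardinal.{u}) (F : Filter κ.ord.ToType) : Prop :=
  ∀ S : Set (Set κ.ord.ToType), #S < κ → (∀ s ∈ S, s ∈ F) → ⋂₀ S ∈ F

section

variable {κ : Cardinal.{u}}

theorem small_iUnion (hκ : κ.IsRegular) {ι : Type u} (hι : #ι < κ) {α : Type u} {A : ι → Set α}
    (h : ∀ i, #(A i) < κ) : #(⋃ i, A i) < κ :=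
  (card_iUnion_lt_iff_forall_of_isRegular hκ hι).2 h

/-- almost disjoint sets -/
theorem exists_ad (hκ : κ.IsRegular) :
    ∃ B : (Order.succ κ).ord.ToType → Set κ.ord.ToType, (∀ i, κ ≤ #(B i)) ∧
      ∀ i j, i ≠ j → #(B i ∩ B j : Set κ.ord.ToType) < κ := by
  obtain ⟨h, hh⟩ := Pool.Agent.H348R6.GV.exists_scale hκ
  obtain ⟨e⟩ : Nonempty (κ.ord.ToType × κ.ord.ToType ≃ κ.ord.ToType) := by
    rw [← Cardinal.eq]
    simp only [mk_prod, lift_id, Cardinal.mk_toType, card_ord]
    exact mul_eq_self hκ.aleph0_le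
  refine ⟨fun i => range fun a => e (a, h i a), fun i => ?_, fun i j hij => ?_⟩
  · have h1 : #(κ.ord.ToType) ≤ #(range fun a => e (a, h i a)) :=
      mk_le_of_injective (f := rangeFactorization fun a => e (a, h i a)) (by
        intro a b hab
        have h2 : e (a, h i a) = e (b, h i b) := congrArg Subtype.val hab
        exact (Prod.ext_iff.1 (e.injective h2)).1)
    rwa [Cardinal.mk_toType, card_ord] at h1
  · have key : ∃ b, ∀ a, b ≤ a → h i a ≠ h j a := by
      rcases lt_or_gt_of_ne hij with h1 | h1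
      · obtain ⟨b, hb⟩ := hh j i h1
        exact ⟨b, fun a ha => (hb a ha).ne⟩
      · obtain ⟨b, hb⟩ := hh i j h1
        exact ⟨b, fun a ha => (hb a ha).ne'⟩
    obtain ⟨b, hb⟩ := key
    have h2 : ((range fun a => e (a, h i a)) ∩ (range fun a => e (a, h j a)) :
        Set κ.ord.ToType) ⊆ (fun a => e (a, h i a)) '' Iic b := by
      rintro _ ⟨⟨a, rfl⟩, a', ha'⟩
      refine ⟨a, ?_, rfl⟩
      have h3 := Prod.ext_iff.1 (e.injective ha')
      have h4 : a' = a := h3.1
      subst h4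
      by_contra hcon
      exact hb a' (not_le.1 hcon).le h3.2.symm
    exact (mk_le_mk_of_subset h2).trans_lt
      (mk_image_le.trans_lt (Pool.Agent.H348R6.GV.mk_Iic_lt hκ b))

/-- The filter of the construction. -/
def theFilter (hκ : κ.IsRegular) (B : (Order.succ κ).ord.ToType → Set κ.ord.ToType) :
    Filter κ.ord.ToType where
  sets := {X | ∃ J : Set (Order.succ κ).ord.ToType, #J < κ ∧
    #(Xᶜ \ ⋃ i : J, B i : Set κ.ord.ToType) < κ}
  univ_sets := ⟨∅, by simpa using hκ.pos, by simpa using hκ.pos⟩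
  sets_of_superset := by
    rintro X Y ⟨J, hJ, hX⟩ hXY
    exact ⟨J, hJ, (mk_le_mk_of_subset (sdiff_subset_sdiff_left
      (compl_subset_compl.2 hXY))).trans_lt hX⟩
  inter_sets := by
    rintro X Y ⟨J, hJ, hX⟩ ⟨K, hK, hY⟩
    refine ⟨J ∪ K, (mk_union_le J K).trans_lt (add_lt_of_lt hκ.aleph0_le hJ hK), ?_⟩
    refine (mk_le_mk_of_subset ?_).trans_lt
      ((mk_union_le _ _).trans_lt (add_lt_of_lt hκ.aleph0_le hX hY))
    rintro a ⟨ha, haU⟩
    have h1 : ∀ i ∈ J ∪ K, a ∉ B i := fun i hi hai => haU (mem_iUnion.2 ⟨⟨i, hi⟩, hai⟩)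
    by_cases haX : a ∈ X
    · right
      refine ⟨fun haY => ha ⟨haX, haY⟩, fun h => ?_⟩
      obtain ⟨i, hi⟩ := mem_iUnion.1 h
      exact h1 i (Or.inr i.2) hi
    · left
      refine ⟨haX, fun h => ?_⟩
      obtain ⟨i, hi⟩ := mem_iUnion.1 h
      exact h1 i (Or.inl i.2) hi

theorem mem_theFilter {hκ : κ.IsRegular} {B : (Order.succ κ).ord.ToType → Set κ.ord.ToType}
    {X : Set κ.ord.ToType} : X ∈ theFilter hκ B ↔ ∃ J : Set (Order.succ κ).ord.ToType,
      #J < κ ∧ #(Xᶜ \ ⋃ i : J, B i : Set κ.ord.ToType) < κ := Iff.rfl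

theorem complete_theFilter (hκ : κ.IsRegular)
    (B : (Order.succ κ).ord.ToType → Set κ.ord.ToType) : Complete κ (theFilter hκ B) := by
  intro S hS hall
  choose J hJ hX using fun s : S => mem_theFilter.1 (hall s.1 s.2)
  refine mem_theFilter.2 ⟨⋃ s, J s, small_iUnion hκ hS hJ, ?_⟩
  refine (mk_le_mk_of_subset ?_).trans_lt (small_iUnion hκ hS hX)
  rintro a ⟨ha, haU⟩
  have h1 : ∃ s ∈ S, a ∉ s := by
    by_contra hcon
    push Not at hcon
    exact ha fun s hs => hcon s hs
  obtain ⟨s, hs, has⟩ := h1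
  refine mem_iUnion.2 ⟨⟨s, hs⟩, has, fun h => ?_⟩
  obtain ⟨i, hi⟩ := mem_iUnion.1 h
  exact haU (mem_iUnion.2 ⟨⟨i.1, mem_iUnion.2 ⟨⟨s, hs⟩, i.2⟩⟩, hi⟩)

theorem not_small (hκ : κ.IsRegular) {B : (Order.succ κ).ord.ToType → Set κ.ord.ToType}
    (h1 : ∀ i, κ ≤ #(B i)) (h2 : ∀ i j, i ≠ j → #(B i ∩ B j : Set κ.ord.ToType) < κ)
    {J : Set (Order.succ κ).ord.ToType} (hJ : #J < κ) {j : (Order.succ κ).ord.ToType}
    (hj : j ∉ J) : ¬ #(B j \ ⋃ i : J, B i : Set κ.ord.ToType) < κ := by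
  intro h
  have h3 : #(⋃ i : J, (B j ∩ B i) : Set κ.ord.ToType) < κ :=
    small_iUnion hκ hJ fun i => h2 j i fun hji => hj (hji ▸ i.2)
  have h4 : B j ⊆ (B j \ ⋃ i : J, B i) ∪ ⋃ i : J, (B j ∩ B i) := by
    intro a ha
    by_cases haU : a ∈ ⋃ i : J, B i
    · right
      obtain ⟨i, hi⟩ := mem_iUnion.1 haU
      exact mem_iUnion.2 ⟨i, ha, hi⟩
    · exact Or.inl ⟨ha, haU⟩
  have h5 : #(B j) < κ := (mk_le_mk_of_subset h4).trans_lt
    ((mk_union_le _ _).trans_lt (add_lt_of_lt hκ.aleph0_le h h3))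
  exact absurd (h1 j) (not_le.2 h5)

end

/-- For every regular cardinal `κ` there is a proper `κ`-complete filter over `κ` which contains
every set with a complement of size less than `κ` and does not have the Galvin property. -/
theorem result (κ : Cardinal.{u}) (hκ : κ.IsRegular) :
    ∃ F : Filter κ.ord.ToType, F.NeBot ∧ Complete κ F ∧ (∀ s : Set κ.ord.ToType,
      #(sᶜ : Set κ.ord.ToType) < κ → s ∈ F) ∧ ¬ Galvin κ F := by
  obtain ⟨B, h1, h2⟩ := exists_ad hκ
  have hsucc : ∀ J : Set (Order.succ κ).ord.ToType, #J ≤ κ → ∃ j, j ∉ J := by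
    intro J hJ
    by_contra hcon
    push Not at hcon
    have h3 : J = Set.univ := eq_univ_of_forall hcon
    rw [h3, mk_univ, Cardinal.mk_toType, card_ord] at hJ
    exact absurd hJ (not_le.2 (Order.lt_succ κ))
  have hmem : ∀ s : Set κ.ord.ToType, #(sᶜ : Set κ.ord.ToType) < κ → s ∈ theFilter hκ B :=
    fun s hs => mem_theFilter.2 ⟨∅, by simpa using hκ.pos,
      (mk_le_mk_of_subset sdiff_subset).trans_lt hs⟩
  refine ⟨theFilter hκ B, ?_, complete_theFilter hκ B, hmem, fun hG => ?_⟩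
  · refine ⟨fun hbot => ?_⟩
    have h3 : (∅ : Set κ.ord.ToType) ∈ theFilter hκ B := by
      rw [hbot]
      exact Filter.mem_bot
    obtain ⟨J, hJ, hJ2⟩ := mem_theFilter.1 h3
    obtain ⟨j, hj⟩ := hsucc J hJ.le
    exact not_small hκ h1 h2 hJ hj ((mk_le_mk_of_subset
      (sdiff_subset_sdiff_left (by simp))).trans_lt hJ2)
  · obtain ⟨I, hI, hIF⟩ := hG (fun i => (B i)ᶜ) (fun i => mem_theFilter.2 ⟨{i}, by
      rw [mk_singleton]
      exact one_lt_aleph0.trans_le hκ.aleph0_le, by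
      have : ((B i)ᶜᶜ \ ⋃ j : ({i} : Set _), B j : Set κ.ord.ToType) = ∅ := by
        rw [compl_compl, sdiff_eq_empty]
        exact fun a ha => mem_iUnion.2 ⟨⟨i, rfl⟩, ha⟩
      rw [this]
      simpa using hκ.pos⟩)
    obtain ⟨J, hJ, hJ2⟩ := mem_theFilter.1 hIF
    have h3 : ∃ j ∈ I, j ∉ J := by
      by_contra hcon
      push Not at hcon
      have h4 := mk_le_mk_of_subset (show I ⊆ J from hcon)
      rw [hI] at h4
      exact absurd h4 (not_le.2 hJ)
    obtain ⟨j, hjI, hjJ⟩ := h3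
    refine not_small hκ h1 h2 hJ hjJ ((mk_le_mk_of_subset
      (sdiff_subset_sdiff_left ?_)).trans_lt hJ2)
    intro a ha
    rw [mem_compl_iff, mem_iInter₂]
    exact fun h => h j hjI ha

end Pool.Agent.Results.MP_45cf3b_lc.FilterWithoutGalvin
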